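import Mathlib

set_option autoImplicit false

namespace Pool.Agent.Results.MP_d698c5_an.NoHaar

open Set MeasureTheory TopologicalSpace

theorem exists_hom : ∃ (ψ : AddCircle (1 : ℝ) →+ ℝ) (a : AddCircle (1 : ℝ)), ψ a = 1 := by
  have h : √2 ∉ Submodule.span ℚ {(1 : ℝ)} := fun h => by
    obtain ⟨q, hq⟩ := Submodule.mem_span_singleton.1 h
    exact irrational_sqrt_two ⟨q, by simpa using hq⟩
  obtain ⟨f, h1, h2⟩ := Submodule.exists_le_ker_of_notMem h
  have h3 : f 1 = 0 := h2 (Submodule.mem_span_singleton_self _)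
  let g : ℝ →+ ℝ := (Rat.castHom ℝ).toAddMonoidHom.comp ((f √2)⁻¹ • f).toAddMonoidHom
  refine ⟨QuotientAddGroup.lift _ g ?_, (√2 : ℝ), ?_⟩
  · rw [AddSubgroup.zmultiples_le]
    simp [g, h3]
  · change g √2 = 1
    simp [g, h1]

/-- The underlying space. -/
def X (_ψ : AddCircle (1 : ℝ) →+ ℝ) : Type := ℝ × AddCircle (1 : ℝ)

noncomputable instance (ψ : AddCircle (1 : ℝ) →+ ℝ) : Group (X ψ) where
  mul x y := ((2 : ℝ) ^ ψ y.2 * x.1 + y.1, x.2 + y.2)
  one := (0, 0)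
  inv x := (-((2 : ℝ) ^ ψ (-x.2) * x.1), -x.2)
  mul_assoc x y z := Prod.ext (by
    change (2 : ℝ) ^ ψ z.2 * (2 ^ ψ y.2 * x.1 + y.1) + z.1 =
      2 ^ ψ (y.2 + z.2) * x.1 + (2 ^ ψ z.2 * y.1 + z.1)
    rw [map_add, Real.rpow_add two_pos]
    ring) (add_assoc _ _ _)
  one_mul x := Prod.ext (by change (2 : ℝ) ^ ψ x.2 * 0 + x.1 = x.1; simp) (zero_add _)
  mul_one x := Prod.ext (by change (2 : ℝ) ^ ψ 0 * x.1 + 0 = x.1; simp) (add_zero _)
  inv_mul_cancel x := Prod.ext (by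
    change (2 : ℝ) ^ ψ x.2 * -(2 ^ ψ (-x.2) * x.1) + x.1 = 0
    rw [mul_neg, ← mul_assoc, ← Real.rpow_add two_pos]
    simp) (neg_add_cancel _)

theorem result : ∃ (G : Type) (_ : Group G) (_ : TopologicalSpace G) (_ : MeasurableSpace G),
    BorelSpace G ∧ MetrizableSpace G ∧ LocallyCompactSpace G ∧
    (∀ g : G, Continuous fun x => x * g) ∧
    ∀ μ : Measure G, IsFiniteMeasureOnCompacts μ →
      (∀ (g : G) (E : Set G), MeasurableSet E → μ ((fun x => x * g) '' E) = μ E) → μ = 0 := by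
  obtain ⟨ψ, a, ha⟩ := exists_hom
  refine ⟨X ψ, inferInstance, instTopologicalSpaceProd (X := ℝ) (Y := AddCircle (1 : ℝ)),
    Prod.instMeasurableSpace (α := ℝ) (β := AddCircle (1 : ℝ)),
    Prod.borelSpace (α := ℝ) (β := AddCircle (1 : ℝ)),
    (inferInstance : MetrizableSpace (ℝ × AddCircle (1 : ℝ))),
    (inferInstance : LocallyCompactSpace (ℝ × AddCircle (1 : ℝ))), fun g => ?_, ?_⟩
  · change Continuous fun x : ℝ × AddCircle (1 : ℝ) => ((2 : ℝ) ^ ψ g.2 * x.1 + g.1, x.2 + g.2)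
    fun_prop
  change ∀ μ : Measure (ℝ × AddCircle (1 : ℝ)), IsFiniteMeasureOnCompacts μ →
    (∀ (g : ℝ × AddCircle (1 : ℝ)) (E : Set (ℝ × AddCircle (1 : ℝ))), MeasurableSet E →
      μ ((fun x => ((2 : ℝ) ^ ψ g.2 * x.1 + g.1, x.2 + g.2)) '' E) = μ E) → μ = 0
  intro μ hμ h
  have key : ∀ (b : ℝ) (c : AddCircle (1 : ℝ)),
      μ (Ico b (2 ^ ψ c + b) ×ˢ univ) = μ (Ico 0 1 ×ˢ univ) := fun b c => by
    rw [← h (b, c) (Ico 0 1 ×ˢ univ) (measurableSet_Ico.prod MeasurableSet.univ)]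
    congr 1
    have hp : (0 : ℝ) < 2 ^ ψ c := Real.rpow_pos_of_pos two_pos _
    have := prodMap_image_prod (fun x : ℝ => (2 : ℝ) ^ ψ c * x + b)
      (fun x : AddCircle (1 : ℝ) => x + c) (Ico 0 1) univ
    rw [image_affine_Ico hp, image_univ, (add_right_surjective c).range_eq] at this
    rw [mul_zero, zero_add, mul_one] at this
    exact this.symm
  have h1 := key 0 a
  have h2 := fun b => key b 0
  simp only [ha, map_zero, Real.rpow_zero, Real.rpow_one, add_zero] at h1 h2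
  have hfin : μ (Ico 0 1 ×ˢ univ) ≠ ⊤ := ((measure_mono (prod_mono Ico_subset_Icc_self
    subset_rfl)).trans_lt (isCompact_Icc.prod isCompact_univ).measure_lt_top).ne
  have h0 : μ (Ico 0 1 ×ˢ univ) = 0 := by
    rw [← Ico_union_Ico_eq_Ico zero_le_one one_le_two, union_prod, measure_union
      (Disjoint.set_prod_left (Ico_disjoint_Ico_same) _ _)
      (measurableSet_Ico.prod MeasurableSet.univ), ← one_add_one_eq_two, h2 1] at h1
    exact (ENNReal.add_right_inj hfin).1 (h1.trans (add_zero _).symm)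
  rw [← Measure.measure_univ_eq_zero, ← univ_prod_univ, ← iUnion_Ico_intCast ℝ, iUnion_prod_const]
  exact measure_iUnion_null fun n => by rw [add_comm, h2, h0]

end Pool.Agent.Results.MP_d698c5_an.NoHaar
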